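import Pool.Agent.H13.EV.Defs

/-!
# Module LINE of board ev_modules (MP_6b5a9a_nt)
-/

set_option autoImplicit false

open Polynomial

namespace Pool.Agent.H69.EV

open Pool.Agent.H62.HE Pool.Agent.H13.EV

universe u

section val

variable {k : Type u} [Field k] {Γ₀ : Type u} [LinearOrderedCommGroupWithZero Γ₀]
  (v : Valuation k Γ₀) (b t : Γ₀)

/-- growth of the coefficients -/
def Bd (p : k[X]) (d : ℕ) : Prop :=
  p.natDegree ≤ d ∧ ∀ i, v (p.coeff i) ≤ b * t ^ (d - i)

variable {v b t}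

theorem Bd.eval {p : k[X]} {d : ℕ} (h : Bd v b t p d) {x : k} (hx : v x ≤ t) :
    v (p.eval x) ≤ b * t ^ d := by
  rw [eval_eq_sum_range]
  refine v.map_sum_le fun i hi => ?_
  have hi' : i ≤ d := by
    have := Finset.mem_range.1 hi
    have := h.1
    omega
  rw [map_mul, map_pow]
  calc v (p.coeff i) * v x ^ i ≤ (b * t ^ (d - i)) * t ^ i :=
        mul_le_mul' (h.2 i) (pow_le_pow_left' hx i)
    _ = b * t ^ d := by rw [mul_assoc, ← pow_add, Nat.sub_add_cancel hi']

theorem Bd.div {p : k[X]} {d : ℕ} (h : Bd v b t p (d + 1)) {x : k} (hx : v x ≤ t) :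
    Bd v b t (p /ₘ (X - C x)) d := by
  refine ⟨?_, fun n => ?_⟩
  · rw [natDegree_divByMonic _ (monic_X_sub_C x), natDegree_X_sub_C]
    have := h.1
    omega
  · rw [coeff_divByMonic_X_sub_C]
    refine v.map_sum_le fun i hi => ?_
    rw [Finset.mem_Icc] at hi
    have hi1 := hi.1
    have hi2 := hi.2.trans h.1
    rw [map_mul, map_pow]
    calc v x ^ (i - (n + 1)) * v (p.coeff i) ≤ t ^ (i - (n + 1)) * (b * t ^ (d + 1 - i)) :=
          mul_le_mul' (pow_le_pow_left' hx _) (h.2 i)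
      _ = b * (t ^ (i - (n + 1)) * t ^ (d + 1 - i)) := by
          rw [mul_left_comm]
      _ = b * t ^ (d - n) := by
          rw [← pow_add]
          congr 2
          omega

end val

section alg

variable {k : Type u} [Field k]

theorem exists_prod [IsAlgClosed k] (n : ℕ) : ∀ r : k[X], r.Monic → r.natDegree = n →
    ∃ θ : Fin n → k, r = ∏ j, (X - C (θ j)) := by
  induction n with
  | zero =>
    intro r hr hn
    refine ⟨Fin.elim0, ?_⟩
    rw [Finset.univ_eq_empty, Finset.prod_empty]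
    exact hr.natDegree_eq_zero.1 hn
  | succ n ih =>
    intro r hr hn
    have hdeg : r.degree ≠ 0 := by
      rw [degree_eq_natDegree hr.ne_zero, hn]
      exact_mod_cast Nat.succ_ne_zero n
    obtain ⟨a, ha⟩ := IsAlgClosed.exists_root r hdeg
    obtain ⟨q, hq⟩ := dvd_iff_isRoot.2 ha
    have hqm : q.Monic := by
      have : ((X - C a) * q).Monic := by rw [← hq]; exact hr
      exact (monic_X_sub_C a).of_mul_monic_left this
    have hqd : q.natDegree = n := by
      have := (monic_X_sub_C a).natDegree_mul hqm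
      rw [← hq, hn, natDegree_X_sub_C] at this
      omega
    obtain ⟨θ, hθ⟩ := ih q hqm hqd
    refine ⟨Fin.cons a θ, ?_⟩
    rw [Fin.prod_univ_succ, Fin.cons_zero, hq, hθ]
    simp

theorem II_pt (f W : k[X]) (a : k) : II f (X - C a) W = pt f a (W.eval a) := by
  unfold pt II
  obtain ⟨q, hq⟩ : (X - C a) ∣ W - C (W.eval a) := by
    rw [dvd_iff_isRoot]
    simp
  have e1 : (⟨-W, 1⟩ : HR k f) = ⟨-C (W.eval a), 1⟩ - ⟨q, 0⟩ * ⟨X - C a, 0⟩ := by
    have hWq : W = C (W.eval a) + (X - C a) * q := by rw [← hq]; ring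
    refine QuadraticAlgebra.ext ?_ ?_
    · rw [QuadraticAlgebra.re_sub, QuadraticAlgebra.re_mul]
      show -W = -C (W.eval a) - (q * (X - C a) + f * 0 * 0)
      rw [← sub_eq_zero]
      have h0 : -W - (-C (W.eval a) - (q * (X - C a) + f * 0 * 0)) =
          -(W - (C (W.eval a) + (X - C a) * q)) := by ring
      rw [h0, ← hWq, sub_self, neg_zero]
    · rw [QuadraticAlgebra.im_sub, QuadraticAlgebra.im_mul]
      show (1 : k[X]) = 1 - (q * 0 + 0 * (X - C a) + 0 * 0 * 0)
      ring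
  have e2 : (⟨-C (W.eval a), 1⟩ : HR k f) = ⟨-W, 1⟩ + ⟨q, 0⟩ * ⟨X - C a, 0⟩ := by
    rw [e1]; ring
  apply le_antisymm
  · rw [Ideal.span_le]
    rintro x (rfl | rfl)
    · exact Ideal.subset_span (Or.inl rfl)
    · rw [e1]
      exact Ideal.sub_mem _ (Ideal.subset_span (Or.inr rfl))
        (Ideal.mul_mem_left _ _ (Ideal.subset_span (Or.inl rfl)))
  · rw [Ideal.span_le]
    rintro x (rfl | rfl)
    · exact Ideal.subset_span (Or.inl rfl)
    · rw [e2]
      exact Ideal.add_mem _ (Ideal.subset_span (Or.inr rfl))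
        (Ideal.mul_mem_left _ _ (Ideal.subset_span (Or.inl rfl)))

theorem II_one (f W : k[X]) : II f 1 W = 1 := by
  unfold II
  rw [Ideal.one_eq_top, Ideal.eq_top_iff_one]
  exact Ideal.subset_span (Or.inl rfl)

theorem II_prod (h : T_MUL.{u}) (f W : k[X]) (h2 : (2 : k) ≠ 0) (hf : Squarefree f) {ι : Type}
    (s : Finset ι) (θ : ι → k) (hd : (∏ j ∈ s, (X - C (θ j))) ∣ W ^ 2 - f) :
    II f (∏ j ∈ s, (X - C (θ j))) W = ∏ j ∈ s, pt f (θ j) (W.eval (θ j)) := by
  classical
  induction s using Finset.induction_on with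
  | empty => rw [Finset.prod_empty, Finset.prod_empty, II_one]
  | insert a s ha ih =>
    rw [Finset.prod_insert ha] at hd ⊢
    rw [Finset.prod_insert ha, h k f _ _ W h2 hf hd, ih ((Dvd.intro_left _ rfl).trans hd), II_pt]

theorem II_norm (f W : k[X]) : II f (f - W ^ 2) W = Ideal.span {(⟨-W, 1⟩ : HR k f)} := by
  unfold II
  have e : (⟨f - W ^ 2, 0⟩ : HR k f) = ⟨W, 1⟩ * ⟨-W, 1⟩ := by
    refine QuadraticAlgebra.ext ?_ ?_
    · rw [QuadraticAlgebra.re_mul]
      show f - W ^ 2 = W * -W + f * 1 * 1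
      ring
    · rw [QuadraticAlgebra.im_mul]
      show (0 : k[X]) = W * 1 + 1 * -W + 0 * 1 * 1
      ring
  apply le_antisymm
  · rw [Ideal.span_le]
    rintro x (rfl | rfl)
    · rw [e]
      exact Ideal.mul_mem_left _ _ (Ideal.mem_span_singleton_self _)
    · exact Ideal.mem_span_singleton_self _
  · rw [Ideal.span_le]
    rintro x rfl
    exact Ideal.subset_span (Or.inr rfl)

end alg

theorem line (h : T_MUL.{u}) : T_LINE.{u} := by
  intro k _ _ Γ₀ _ v g f e x1 y1 B β h2 hg hfm hfs hfd hfc hβ he hx1 hfe hy1 hy hlt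
  have hxe : x1 - e ≠ 0 := by
    intro h0
    rw [sub_eq_zero] at h0
    rw [h0, hfe] at hy
    exact hy1 (pow_eq_zero_iff two_ne_zero |>.1 hy)
  obtain ⟨lam, hlam⟩ : ∃ l : k, l = y1 / (x1 - e) := ⟨_, rfl⟩
  have hlam0 : lam ≠ 0 := by rw [hlam]; exact div_ne_zero hy1 hxe
  have hlamy : lam * (x1 - e) = y1 := by rw [hlam]; field_simp
  rw [← hlam] at hlt
  obtain ⟨W, hW⟩ : ∃ W : k[X], W = C lam * (X - C e) := ⟨_, rfl⟩
  have hWev : ∀ z, W.eval z = lam * (z - e) := by intro z; rw [hW]; simp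
  -- bounds
  have hBf : Bd v (v B) (v β) f (2 * g - 1 + 1 + 1) := by
    refine ⟨by omega, fun i => (hfc i).trans ?_⟩
    exact le_mul_of_one_le_right' (one_le_pow_of_one_le' hβ _)
  have hB1 := hBf.div he
  have hB2 := hB1.div hx1
  obtain ⟨f1, hf1⟩ : ∃ p, p = f /ₘ (X - C e) := ⟨_, rfl⟩
  rw [← hf1] at hB1 hB2
  obtain ⟨f2, hf2⟩ : ∃ p, p = f1 /ₘ (X - C x1) := ⟨_, rfl⟩
  rw [← hf2] at hB2
  have e1 : (X - C e) * f1 = f := by
    rw [hf1]
    exact mul_divByMonic_eq_iff_isRoot.2 hfe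
  have e2 : C (f1.eval x1) + (X - C x1) * f2 = f1 := by
    rw [hf2, ← modByMonic_X_sub_C_eq_C_eval]
    exact modByMonic_add_div f1 (X - C x1)
  have e3 : f1.eval x1 = lam ^ 2 * (x1 - e) := by
    have h1 : (x1 - e) * f1.eval x1 = y1 ^ 2 := by
      rw [hy, ← e1]
      simp
    have h3 : (x1 - e) * f1.eval x1 = (x1 - e) * (lam ^ 2 * (x1 - e)) := by
      rw [h1, ← hlamy]; ring
    exact mul_left_cancel₀ hxe h3
  obtain ⟨r, hr⟩ : ∃ r : k[X], r = f2 - C (lam ^ 2) := ⟨_, rfl⟩
  have e4 : f - W ^ 2 = (X - C e) * ((X - C x1) * r) := by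
    have h1 : C (f1.eval x1) = C lam ^ 2 * (C x1 - C e) := by
      rw [e3, map_mul, map_pow, map_sub]
    have h3 : f = (X - C e) * (C lam ^ 2 * (C x1 - C e) + (X - C x1) * f2) := by
      rw [← h1, e2, e1]
    rw [h3, hW, hr, map_pow]
    ring
  have hWd : (W ^ 2).degree < f.degree := by
    have h1 : (W ^ 2).natDegree ≤ 2 := by
      refine natDegree_pow_le.trans ?_
      have : W.natDegree ≤ 1 := by
        rw [hW]
        refine natDegree_C_mul_le _ _ |>.trans ?_
        rw [natDegree_X_sub_C]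
      omega
    have h3 : (W ^ 2).degree ≤ 2 := natDegree_le_iff_degree_le.1 h1
    refine h3.trans_lt ?_
    rw [degree_eq_natDegree hfm.ne_zero, hfd]
    exact_mod_cast (by omega : 2 < 2 * g + 1)
  have hFm : (f - W ^ 2).Monic := hfm.sub_of_left hWd
  have hFd : (f - W ^ 2).natDegree = 2 * g + 1 := by
    rw [natDegree_sub_eq_left_of_natDegree_lt, hfd]
    exact natDegree_lt_natDegree_iff (by
      intro h0
      have := pow_eq_zero_iff two_ne_zero |>.1 h0
      rw [hW] at this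
      exact (mul_ne_zero (C_ne_zero.2 hlam0) (X_sub_C_ne_zero e)) this) |>.2 hWd
  have hrm' : ((X - C x1) * r).Monic :=
    (monic_X_sub_C e).of_mul_monic_left (by rw [← e4]; exact hFm)
  have hrm : r.Monic := (monic_X_sub_C x1).of_mul_monic_left hrm'
  have hrd : r.natDegree = 2 * g - 1 := by
    have h1 := (monic_X_sub_C e).natDegree_mul hrm'
    have h3 := (monic_X_sub_C x1).natDegree_mul hrm
    rw [← e4, hFd, natDegree_X_sub_C, h3, natDegree_X_sub_C] at h1
    omega
  obtain ⟨θ, hθ⟩ := exists_prod (2 * g - 1) r hrm hrd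
  have hroot : ∀ j, r.eval (θ j) = 0 := by
    intro j
    rw [hθ, eval_prod]
    exact Finset.prod_eq_zero (Finset.mem_univ j) (by simp)
  have hbig : ∀ j, v β < v (θ j) := by
    intro j
    by_contra hle
    push Not at hle
    have h1 := hroot j
    rw [hr, eval_sub, eval_C, sub_eq_zero] at h1
    have h3 := hB2.eval hle
    rw [h1, map_pow] at h3
    have h4 : v B * v β ^ (2 * g - 1) ≤ v B * v β ^ (2 * g) := by
      gcongr
      · omega
    exact absurd (h3.trans h4) (not_le.2 hlt)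
  have hθe : ∀ j, θ j - e ≠ 0 := by
    intro j h0
    rw [sub_eq_zero] at h0
    have := hbig j
    rw [h0] at this
    exact absurd he (not_le.2 this)
  refine ⟨θ, fun j => lam * (θ j - e), hbig, fun j => mul_ne_zero hlam0 (hθe j), ?_, ?_⟩
  · intro j
    have h1 : (f - W ^ 2).eval (θ j) = 0 := by
      rw [e4, eval_mul, eval_mul, hroot j, mul_zero, mul_zero]
    rw [eval_sub, eval_pow, hWev, sub_eq_zero] at h1
    exact h1.symm
  · have hd1 : (X - C e) * ((X - C x1) * r) ∣ W ^ 2 - f := by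
      rw [← e4, ← neg_sub, neg_dvd]
    have hd2 : (X - C x1) * r ∣ W ^ 2 - f := (Dvd.intro_left _ rfl).trans hd1
    have hd3 : r ∣ W ^ 2 - f := (Dvd.intro_left _ rfl).trans hd2
    have k1 := II_norm f W
    rw [e4, h k f _ _ W h2 hfs hd1, h k f _ _ W h2 hfs hd2, II_pt, II_pt, hWev, hWev, sub_self,
      mul_zero, hlamy] at k1
    have k2 : II f r W = ∏ j, pt f (θ j) (lam * (θ j - e)) := by
      have := II_prod h f W h2 hfs Finset.univ θ (by rw [← hθ]; exact hd3)
      rw [← hθ] at this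
      rw [this]
      exact Finset.prod_congr rfl fun j _ => by rw [hWev]
    rw [k2, ← mul_assoc] at k1
    rw [k1]
    exact ⟨⟨_, rfl⟩⟩

end Pool.Agent.H69.EV
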